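import Mathlib

set_option autoImplicit false

/-! Triangle-free graphs of large minimum degree with very many maximal independent sets:
`2 r` hubs and `t` disjoint edges; every hub is joined to one end of every edge. -/

namespace Pool.Agent.H37.MisBip

/-- The number of maximal independent sets of a graph. -/
noncomputable def mis {V : Type} (G : SimpleGraph V) : ℕ :=
  {s : Set V | Maximal G.IsIndepSet s}.ncard

/-- The adjacency relation: a hub `inl (b, i)` is joined to all `inr (b, j)`, and `inr (true, j)` is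
joined to `inr (false, j)`. -/
def adj (r t : ℕ) : (Bool × Fin r) ⊕ (Bool × Fin t) → (Bool × Fin r) ⊕ (Bool × Fin t) → Prop
  | Sum.inl _, Sum.inl _ => False
  | Sum.inl x, Sum.inr y => x.1 = y.1
  | Sum.inr y, Sum.inl x => x.1 = y.1
  | Sum.inr x, Sum.inr y => x.2 = y.2 ∧ x.1 ≠ y.1

/-- The graph. -/
def gr (r t : ℕ) : SimpleGraph ((Bool × Fin r) ⊕ (Bool × Fin t)) where
  Adj := adj r t
  symm := ⟨by
    rintro (x | x) (y | y) h
    · exact h
    · exact h
    · exact h
    · exact ⟨h.1.symm, h.2.symm⟩⟩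
  loopless := ⟨by
    rintro (x | x) h
    · exact h
    · exact h.2 rfl⟩

variable {r t : ℕ}

theorem adj_lr (x : Bool × Fin r) (y : Bool × Fin t) :
    (gr r t).Adj (Sum.inl x) (Sum.inr y) ↔ x.1 = y.1 := Iff.rfl

theorem adj_rl (x : Bool × Fin r) (y : Bool × Fin t) :
    (gr r t).Adj (Sum.inr y) (Sum.inl x) ↔ x.1 = y.1 := Iff.rfl

theorem adj_ll (x y : Bool × Fin r) :
    ¬ (gr r t).Adj (Sum.inl x) (Sum.inl y) := fun h => h

theorem adj_rr (x y : Bool × Fin t) :
    (gr r t).Adj (Sum.inr x) (Sum.inr y) ↔ x.2 = y.2 ∧ x.1 ≠ y.1 := Iff.rfl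

theorem colorable : (gr r t).Colorable 2 := by
  have c : (gr r t).Coloring Bool := SimpleGraph.Coloring.mk
    (fun v => match v with
      | Sum.inl x => x.1
      | Sum.inr y => !y.1) (by
      rintro (x | x) (y | y) h
      · exact (h : False).elim
      · have h' : x.1 = y.1 := h
        simp [h']
      · have h' : y.1 = x.1 := h
        simp [h']
      · have h' : x.2 = y.2 ∧ x.1 ≠ y.1 := h
        simpa using h'.2)
  have h := c.colorable
  rwa [Fintype.card_bool] at h

theorem connected (hr : 0 < r) (ht : 0 < t) : (gr r t).Connected := by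
  have key : ∀ v, (gr r t).Reachable (Sum.inl (true, ⟨0, hr⟩)) v := by
    have h1 : ∀ j : Fin t, (gr r t).Reachable (Sum.inl (true, ⟨0, hr⟩)) (Sum.inr (true, j)) :=
      fun j => SimpleGraph.Adj.reachable (show (gr r t).Adj _ _ from rfl)
    have h2 : ∀ j : Fin t, (gr r t).Reachable (Sum.inl (true, ⟨0, hr⟩)) (Sum.inr (false, j)) :=
      fun j => (h1 j).trans (SimpleGraph.Adj.reachable
        (show (gr r t).Adj (Sum.inr (true, j)) (Sum.inr (false, j)) from ⟨rfl, by simp⟩))
    have h3 : ∀ (b : Bool) (j : Fin t),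
        (gr r t).Reachable (Sum.inl (true, ⟨0, hr⟩)) (Sum.inr (b, j)) := by
      intro b j
      cases b
      · exact h2 j
      · exact h1 j
    rintro (⟨b, i⟩ | ⟨b, j⟩)
    · exact (h3 b ⟨0, ht⟩).trans (SimpleGraph.Adj.reachable
        (show (gr r t).Adj (Sum.inr (b, ⟨0, ht⟩)) (Sum.inl (b, i)) from rfl))
    · exact h3 b j
  have : Nonempty ((Bool × Fin r) ⊕ (Bool × Fin t)) := ⟨Sum.inl (true, ⟨0, hr⟩)⟩
  exact ⟨fun u v => (key u).symm.trans (key v)⟩

theorem nbr_hub (x : Bool × Fin r) : t ≤ ((gr r t).neighborSet (Sum.inl x)).ncard := by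
  have h : (Set.range fun j : Fin t => (Sum.inr (x.1, j) : (Bool × Fin r) ⊕ (Bool × Fin t))) ⊆
      (gr r t).neighborSet (Sum.inl x) := by
    rintro _ ⟨j, rfl⟩
    exact (rfl : x.1 = x.1)
  have h2 := Set.ncard_le_ncard h (Set.toFinite _)
  rw [← Set.image_univ, Set.ncard_image_of_injective _ (by
    intro a b hab
    simpa using hab), Set.ncard_univ] at h2
  simpa using h2

theorem nbr_pair (y : Bool × Fin t) : r + 1 ≤ ((gr r t).neighborSet (Sum.inr y)).ncard := by
  let g : Option (Fin r) → (Bool × Fin r) ⊕ (Bool × Fin t) := fun o => match o with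
    | none => Sum.inr (!y.1, y.2)
    | some i => Sum.inl (y.1, i)
  have hg : Function.Injective g := by
    intro a b hab
    cases a with
    | none =>
      cases b with
      | none => rfl
      | some j => exact absurd hab (by simp [g])
    | some i =>
      cases b with
      | none => exact absurd hab (by simp [g])
      | some j =>
        have : i = j := by simpa [g] using hab
        rw [this]
  have h : Set.range g ⊆ (gr r t).neighborSet (Sum.inr y) := by
    rintro _ ⟨o, rfl⟩
    cases o with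
    | none => exact ⟨rfl, by simp⟩
    | some i => exact (rfl : y.1 = y.1)
  have h2 := Set.ncard_le_ncard h (Set.toFinite _)
  rw [← Set.image_univ, Set.ncard_image_of_injective _ hg, Set.ncard_univ] at h2
  simpa using h2

/-- A vertex belongs to a maximal independent set iff it has no neighbour in it. -/
theorem mem_iff {V : Type} {G : SimpleGraph V} {S : Set V} (hS : Maximal G.IsIndepSet S) (v : V) :
    v ∈ S ↔ ∀ w ∈ S, ¬ G.Adj v w := by
  constructor
  · intro hv w hw hadj
    exact hS.1 hv hw hadj.ne hadj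
  · intro h
    have hI : G.IsIndepSet (insert v S) := by
      intro a ha b hb hab hadj
      rcases Set.mem_insert_iff.mp ha with ha' | ha'
      · rcases Set.mem_insert_iff.mp hb with hb' | hb'
        · exact hab (ha'.trans hb'.symm)
        · rw [ha'] at hadj
          exact h b hb' hadj
      · rcases Set.mem_insert_iff.mp hb with hb' | hb'
        · rw [hb'] at hadj
          exact h a ha' hadj.symm
        · exact hS.1 ha' hb' hab hadj
    exact hS.2 hI (Set.subset_insert v S) (Set.mem_insert v S)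

/-- A set with this property is a maximal independent set. -/
theorem maximal_of {V : Type} {G : SimpleGraph V} {S : Set V}
    (h : ∀ v, v ∈ S ↔ ∀ w ∈ S, ¬ G.Adj v w) : Maximal G.IsIndepSet S := by
  refine ⟨fun a ha b hb _ hadj => (h a).mp ha b hb hadj, ?_⟩
  intro T hT hST v hv
  rw [h]
  intro w hw hadj
  exact hT hv (hST hw) hadj.ne hadj

/-- The maximal independent set given by a choice of one end of every edge. -/
def S (f : Fin t → Bool) : Set ((Bool × Fin r) ⊕ (Bool × Fin t)) :=
  {v | match v with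
    | Sum.inl x => ∀ j, f j ≠ x.1
    | Sum.inr y => f y.2 = y.1}

theorem mem_inl (f : Fin t → Bool) (x : Bool × Fin r) :
    (Sum.inl x : (Bool × Fin r) ⊕ (Bool × Fin t)) ∈ S f ↔ ∀ j, f j ≠ x.1 := Iff.rfl

theorem mem_inr (f : Fin t → Bool) (y : Bool × Fin t) :
    (Sum.inr y : (Bool × Fin r) ⊕ (Bool × Fin t)) ∈ S f ↔ f y.2 = y.1 := Iff.rfl

theorem S_max (f : Fin t → Bool) : Maximal (gr r t).IsIndepSet (S f) := by
  apply maximal_of
  rintro (x | y)
  · constructor
    · rintro h (z | z) hw hadj
      · exact hadj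
      · exact h z.2 (((mem_inr f z).mp hw).trans ((adj_lr x z).mp hadj).symm)
    · intro h j hj
      exact h (Sum.inr (f j, j)) ((mem_inr f (f j, j)).mpr rfl) ((adj_lr x (f j, j)).mpr hj.symm)
  · constructor
    · rintro h (z | z) hw hadj
      · exact (mem_inl f z).mp hw y.2 (((mem_inr f y).mp h).trans ((adj_rl z y).mp hadj).symm)
      · have h1 := (adj_rr y z).mp hadj
        have h2 := (mem_inr f z).mp hw
        have h3 := (mem_inr f y).mp h
        rw [← h1.1, h3] at h2
        exact h1.2 h2
    · intro h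
      by_contra hne
      exact h (Sum.inr (f y.2, y.2)) ((mem_inr f (f y.2, y.2)).mpr rfl)
        ((adj_rr y (f y.2, y.2)).mpr ⟨rfl, fun e => hne ((mem_inr f y).mpr e.symm)⟩)

/-- The set of all hubs. -/
def hubs (r t : ℕ) : Set ((Bool × Fin r) ⊕ (Bool × Fin t)) := {v | v.isLeft}

theorem hubs_max (hr : 0 < r) : Maximal (gr r t).IsIndepSet (hubs r t) := by
  apply maximal_of
  rintro (x | y)
  · refine ⟨?_, fun _ => rfl⟩
    rintro _ (z | z) hw hadj
    · exact hadj
    · exact (Bool.false_ne_true hw).elim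
  · constructor
    · intro h
      exact (Bool.false_ne_true h).elim
    · intro h
      exact absurd rfl (h (Sum.inl (y.1, ⟨0, hr⟩)) rfl : ¬ y.1 = y.1)

theorem S_inj : Function.Injective (S : (Fin t → Bool) → Set ((Bool × Fin r) ⊕ (Bool × Fin t))) := by
  intro f g hfg
  funext j
  have h := (mem_inr (r := r) f (f j, j)).mpr rfl
  rw [hfg] at h
  exact ((mem_inr g (f j, j)).mp h).symm

theorem hubs_not (ht : 0 < t) (f : Fin t → Bool) : S f ≠ hubs r t := by
  intro h
  have h1 := (mem_inr (r := r) f (f ⟨0, ht⟩, ⟨0, ht⟩)).mpr rfl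
  rw [h] at h1
  exact (Bool.false_ne_true h1).elim

/-- The list of the maximal independent sets. -/
theorem mis_iff (hr : 0 < r) (T : Set ((Bool × Fin r) ⊕ (Bool × Fin t))) :
    Maximal (gr r t).IsIndepSet T ↔ T = hubs r t ∨ ∃ f, S f = T := by
  constructor
  · intro hT
    by_cases h : ∃ y : Bool × Fin t, Sum.inr y ∈ T
    · right
      obtain ⟨⟨b0, j0⟩, hy⟩ := h
      have hub : ∀ i : Fin r, (Sum.inl (b0, i) : (Bool × Fin r) ⊕ (Bool × Fin t)) ∉ T := by
        intro i hi
        exact (mem_iff hT _).mp hi _ hy rfl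
      have ex : ∀ j : Fin t, ∃ b : Bool, (Sum.inr (b, j) : (Bool × Fin r) ⊕ (Bool × Fin t)) ∈ T := by
        intro j
        by_contra hno
        push Not at hno
        refine hno b0 ((mem_iff hT _).mpr ?_)
        rintro (z | z) hw hadj
        · have hz : z.1 = b0 := hadj
          apply hub z.2
          rw [← hz]
          exact hw
        · have hz : j = z.2 ∧ b0 ≠ z.1 := hadj
          apply hno z.1
          rw [hz.1]
          exact hw
      choose f hf using ex
      have hpair : ∀ y : Bool × Fin t,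
          (Sum.inr y : (Bool × Fin r) ⊕ (Bool × Fin t)) ∈ T ↔ f y.2 = y.1 := by
        intro y
        constructor
        · intro hyT
          by_contra hne
          exact (mem_iff hT _).mp hyT _ (hf y.2) ⟨rfl, fun e => hne e.symm⟩
        · intro e
          have h1 := hf y.2
          rw [e] at h1
          exact h1
      refine ⟨f, ?_⟩
      ext v
      rcases v with x | y
      · rw [mem_inl, mem_iff hT]
        constructor
        · rintro h (z | z) hw hadj
          · exact hadj
          · exact h z.2 (((hpair z).mp hw).trans ((adj_lr x z).mp hadj).symm)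
        · intro h j hj
          exact h _ (hf j) ((adj_lr x (f j, j)).mpr hj.symm)
      · rw [mem_inr, hpair]
    · left
      push Not at h
      have hsub : T ⊆ hubs r t := by
        rintro (x | y) hv
        · exact rfl
        · exact absurd hv (h y)
      exact Set.Subset.antisymm hsub (hT.2 (hubs_max hr).1 hsub)
  · rintro (rfl | ⟨f, rfl⟩)
    · exact hubs_max hr
    · exact S_max f

theorem mis_gr (hr : 0 < r) (ht : 0 < t) : mis (gr r t) = 2 ^ t + 1 := by
  have h1 : {s : Set ((Bool × Fin r) ⊕ (Bool × Fin t)) | Maximal (gr r t).IsIndepSet s} =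
      insert (hubs r t) (Set.range S) := by
    ext T
    change Maximal (gr r t).IsIndepSet T ↔ _
    rw [mis_iff hr, Set.mem_insert_iff, Set.mem_range]
  unfold mis
  rw [h1, Set.ncard_insert_of_notMem (by
    rintro ⟨f, hf⟩
    exact hubs_not ht f hf) (Set.toFinite _), ← Set.image_univ,
    Set.ncard_image_of_injective _ S_inj, Set.ncard_univ]
  simp

theorem card_gr : Fintype.card ((Bool × Fin r) ⊕ (Bool × Fin t)) = 2 * (r + t) := by
  simp
  ring

theorem deg_gr {k : ℕ} (hk : k ≤ r + 1) (hkt : k ≤ t) (v : (Bool × Fin r) ⊕ (Bool × Fin t)) :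
    k ≤ ((gr r t).neighborSet v).ncard := by
  rcases v with x | y
  · exact hkt.trans (nbr_hub x)
  · exact hk.trans (nbr_pair y)

/-- The general theorem. -/
theorem general (k t : ℕ) (hk : 2 ≤ k) (hkt : k ≤ t) :
    ∃ (V : Type) (_ : Fintype V) (G : SimpleGraph V),
      Fintype.card V = 2 * (k - 1 + t) ∧ G.Connected ∧ G.Colorable 2 ∧
        (∀ v, k ≤ (G.neighborSet v).ncard) ∧ mis G = 2 ^ t + 1 :=
  ⟨_, inferInstance, gr (k - 1) t, card_gr, connected (by omega) (by omega), colorable,
    deg_gr (by omega) hkt, mis_gr (by omega) (by omega)⟩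

theorem pow_ineq (n : ℕ) (hn : 2 ≤ n) : 15 ^ n < 2 ^ (5 * n - 2) + 1 := by
  have h : ∀ m : ℕ, 4 * 15 ^ (m + 2) ≤ 32 ^ (m + 2) := by
    intro m
    induction m with
    | zero => norm_num
    | succ m ih =>
      calc 4 * 15 ^ (m + 1 + 2) = 15 * (4 * 15 ^ (m + 2)) := by ring
        _ ≤ 32 * 32 ^ (m + 2) := Nat.mul_le_mul (by norm_num) ih
        _ = 32 ^ (m + 1 + 2) := by ring
  obtain ⟨m, rfl⟩ := Nat.exists_eq_add_of_le hn
  have h2 := h m
  have h3 : (32 : ℕ) ^ (m + 2) = 4 * 2 ^ (5 * (2 + m) - 2) := by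
    have e : (32 : ℕ) = 2 ^ 5 := by norm_num
    rw [e, ← pow_mul, show (4 : ℕ) = 2 ^ 2 by norm_num, ← pow_add]
    congr 1
    omega
  rw [h3] at h2
  rw [show 2 + m = m + 2 by ring] at h2 ⊢
  omega

theorem bound_fails (n : ℕ) (hn : 2 ≤ n) :
    ∃ (V : Type) (_ : Fintype V) (G : SimpleGraph V),
      Fintype.card V = 10 * n ∧ G.Connected ∧ G.Colorable 2 ∧ G.CliqueFree 3 ∧
        (∀ v, 3 ≤ (G.neighborSet v).ncard) ∧ mis G = 2 ^ (5 * n - 2) + 1 ∧ 15 ^ n < mis G := by
  refine ⟨_, inferInstance, gr 2 (5 * n - 2), ?_, connected (by omega) (by omega), colorable,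
    colorable.cliqueFree (by omega), deg_gr (by omega) (by omega),
    mis_gr (by omega) (by omega), ?_⟩
  · rw [card_gr]
    omega
  · rw [mis_gr (by omega) (by omega)]
    exact pow_ineq n hn

end Pool.Agent.H37.MisBip
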